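import Pool.Agent.Helper93.TCU.Stmts
import Pool.Agent.Helper93.TCU.Bas

/-!
# I1: influence of one coordinate of the choice on the number of surviving options
-/

set_option autoImplicit false

namespace Pool.TCU

open Pool.TC Pool.TCM Pool.TCS Finset
open scoped Classical

section

variable {V κ : Type} [Fintype V] [Fintype κ] {S : CS V κ} {U : Finset V} {L : V → Finset κ}
  {D l m K : ℕ} {x : ℝ} {q : V → κ → ℝ} {Lam : ℝ}

omit [Fintype V] in
private theorem i1_card {A B : Finset V} {w : V} (h : ∀ t, t ≠ w → (t ∈ A ↔ t ∈ B)) :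
    |(A.card : ℝ) - B.card| ≤ 1 := by
  have key : ∀ {A B : Finset V}, (∀ t, t ≠ w → (t ∈ A ↔ t ∈ B)) → (A.card : ℝ) ≤ B.card + 1 := by
    intro A B h
    have h1 : A ⊆ insert w B := by
      intro t ht
      by_cases htw : t = w
      · rw [htw]; exact mem_insert_self _ _
      · exact mem_insert_of_mem ((h t htw).1 ht)
    have h2 := (card_le_card h1).trans (card_insert_le _ _)
    exact_mod_cast h2
  have h1 := key h
  have h2 := key (A := B) (B := A) (fun t ht => (h t ht).symm)
  rw [abs_le]
  constructor <;> linarith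

private theorem i1_term (h : Hyp S U L D l m K x q Lam) {u : V} (hu : u ∈ U) {a : κ} (ha : a ∈ L u)
    {o o' : V → κ} {w : V}
    (h1 : ∀ t, t ≠ w → (t ∈ KP S U o u a ↔ t ∈ KP S U o' u a))
    (h2 : ∀ t, t ≠ w → (t ∈ KR S U o u (S.r u a) ↔ t ∈ KR S U o' u (S.r u a))) :
    |Psi1 S U L l m K x q o u a - Psi1 S U L l m K x q o' u a| ≤ 1 := by
  have c1 := i1_card h1
  have c2 := i1_card h2
  have hb0 := h.bet_pos
  have hb1 := h.bet_le'
  have hbK := h.betK
  have hK := h.Kpos
  have hR0 := h.eR_nonneg (S.r u a)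
  have hR1 := h.eR_le (S.r u a)
  have hK0 := h.fK_nonneg hu ha
  have hK1 := h.fK_le hu ha
  have hmin : ∀ z : ℝ, 0 ≤ z → 0 ≤ bet m K ^ 2 * min z (2 * (K : ℝ) ^ 2) ∧
      bet m K ^ 2 * min z (2 * (K : ℝ) ^ 2) ≤ 1 / 32 := by
    intro z hz
    refine ⟨mul_nonneg (by positivity) (le_min hz (by positivity)), ?_⟩
    calc bet m K ^ 2 * min z (2 * (K : ℝ) ^ 2)
        ≤ bet m K ^ 2 * (2 * (K : ℝ) ^ 2) :=
          mul_le_mul_of_nonneg_left (min_le_right _ _) (by positivity)
      _ = 2 * ((K : ℝ) * bet m K) ^ 2 := by ring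
      _ ≤ 2 * (1 / 8) ^ 2 := by gcongr
      _ = 1 / 32 := by norm_num
  have hmin3 : ∀ z : ℝ, 0 ≤ z → 0 ≤ bet m K ^ 3 / 2 * min z (2 * (K : ℝ) ^ 3) ∧
      bet m K ^ 3 / 2 * min z (2 * (K : ℝ) ^ 3) ≤ 1 / 512 := by
    intro z hz
    refine ⟨mul_nonneg (by positivity) (le_min hz (by positivity)), ?_⟩
    calc bet m K ^ 3 / 2 * min z (2 * (K : ℝ) ^ 3)
        ≤ bet m K ^ 3 / 2 * (2 * (K : ℝ) ^ 3) :=
          mul_le_mul_of_nonneg_left (min_le_right _ _) (by positivity)
      _ = ((K : ℝ) * bet m K) ^ 3 := by ring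
      _ ≤ (1 / 8) ^ 3 := by gcongr
      _ = 1 / 512 := by norm_num
  have n1 := npair_nonneg S (KP S U o u a)
  have n2 := npair_nonneg S (KP S U o' u a)
  have m1 := hmin (npair S (KP S U o u a) / 2 +
    ((KP S U o u a).card : ℝ) * (KR S U o u (S.r u a)).card) (by positivity)
  have m2 := hmin (npair S (KP S U o' u a) / 2 +
    ((KP S U o' u a).card : ℝ) * (KR S U o' u (S.r u a)).card) (by positivity)
  have m3 := hmin3 (((KR S U o u (S.r u a)).card : ℝ) * npair S (KP S U o u a)) (by positivity)
  have m4 := hmin3 (((KR S U o' u (S.r u a)).card : ℝ) * npair S (KP S U o' u a)) (by positivity)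
  unfold Psi1
  rw [← sub_mul, ← sub_mul, abs_mul, abs_mul]
  generalize bet m K ^ 2 * min (npair S (KP S U o u a) / 2 +
    ((KP S U o u a).card : ℝ) * (KR S U o u (S.r u a)).card) (2 * (K : ℝ) ^ 2) = t1 at m1 ⊢
  generalize bet m K ^ 2 * min (npair S (KP S U o' u a) / 2 +
    ((KP S U o' u a).card : ℝ) * (KR S U o' u (S.r u a)).card) (2 * (K : ℝ) ^ 2) = t2 at m2 ⊢
  generalize bet m K ^ 3 / 2 * min (((KR S U o u (S.r u a)).card : ℝ) *
    npair S (KP S U o u a)) (2 * (K : ℝ) ^ 3) = t3 at m3 ⊢
  generalize bet m K ^ 3 / 2 * min (((KR S U o' u (S.r u a)).card : ℝ) *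
    npair S (KP S U o' u a)) (2 * (K : ℝ) ^ 3) = t4 at m4 ⊢
  generalize ((KP S U o u a).card : ℝ) = p1 at c1 ⊢
  generalize ((KP S U o' u a).card : ℝ) = p2 at c1 ⊢
  generalize ((KR S U o u (S.r u a)).card : ℝ) = r1 at c2 ⊢
  generalize ((KR S U o' u (S.r u a)).card : ℝ) = r2 at c2 ⊢
  rw [abs_le] at c1 c2
  have f1 : |1 - bet m K * (p1 + r1) + t1 - t3 - (1 - bet m K * (p2 + r2) + t2 - t4)| ≤ 1 := by
    rw [abs_le]
    constructor <;> nlinarith
  have f2 : |1 - eR S U L l m K x (S.r u a)| ≤ 1 := by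
    rw [abs_le]
    constructor <;> linarith
  have f3 : |1 - fK S U L l m K q u a| ≤ 1 := by
    rw [abs_le]
    constructor <;> linarith
  calc |1 - bet m K * (p1 + r1) + t1 - t3 - (1 - bet m K * (p2 + r2) + t2 - t4)| *
        |1 - eR S U L l m K x (S.r u a)| * |1 - fK S U L l m K q u a|
      ≤ 1 * 1 * 1 := by gcongr
    _ = 1 := by norm_num

end

theorem thm_I1 : St_I1 := by
  intro V κ _ _ S U L M D l m K x q Lam e h hE u hu
  set R : V → Finset (Fin l) := fun w => if w ∈ U then univ.filter (fun i : Fin l =>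
    (S.adj u w ∧ e w i ∈ L u) ∨ (w ≠ u ∧ ∃ a ∈ L u, S.r w (e w i) = S.r u a)) else ∅ with hR
  have hRm : ∀ w (i : Fin l), i ∈ R w ↔ w ∈ U ∧
      ((S.adj u w ∧ e w i ∈ L u) ∨ (w ≠ u ∧ ∃ a ∈ L u, S.r w (e w i) = S.r u a)) := by
    intro w i
    simp only [hR]
    split_ifs with hw
    · simp [hw]
    · simp [hw]
  refine ⟨R, ?_, ?_, ?_, ?_⟩
  · intro w ω ω' hω
    set o := oc e ω with ho
    set o' := oc e ω' with ho'
    have hoo : ∀ t, t ≠ w → o t = o' t := by
      intro t ht
      simp only [ho, ho', oc, hω t ht]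
    set T : Finset κ := (L u ∩ M u).filter (fun a => a = o w ∨ a = o' w ∨
      S.r u a = S.r w (o w) ∨ S.r u a = S.r w (o' w)) with hT
    have hT4 : (T.card : ℝ) ≤ 4 := by
      have hsub : T ⊆ (({o w} : Finset κ) ∪ {o' w}) ∪
          ((L u).filter (fun a => S.r u a = S.r w (o w)) ∪
            (L u).filter (fun a => S.r u a = S.r w (o' w))) := by
        intro a ha
        simp only [hT, mem_filter, mem_union, mem_singleton, mem_inter] at ha ⊢
        tauto
      have hone : ∀ v, ((L u).filter (fun a => S.r u a = v)).card ≤ 1 := by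
        intro v
        rw [card_le_one]
        intro a ha a' ha'
        rw [mem_filter] at ha ha'
        exact h.inj2 u hu a ha.1 a' ha'.1 (ha.2.trans ha'.2.symm)
      have h1 := card_le_card hsub
      have h2 := card_union_le (({o w} : Finset κ) ∪ {o' w})
        ((L u).filter (fun a => S.r u a = S.r w (o w)) ∪
            (L u).filter (fun a => S.r u a = S.r w (o' w)))
      have h3 := card_union_le ({o w} : Finset κ) {o' w}
      have h4 := card_union_le ((L u).filter (fun a => S.r u a = S.r w (o w)))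
            ((L u).filter (fun a => S.r u a = S.r w (o' w)))
      have h5 := hone (S.r w (o w))
      have h6 := hone (S.r w (o' w))
      rw [card_singleton, card_singleton] at h3
      have h7 : T.card ≤ 4 := by omega
      exact_mod_cast h7
    have hz : ∀ a ∈ L u ∩ M u, a ∉ T →
        Psi1 S U L l m K x q o u a - Psi1 S U L l m K x q o' u a = 0 := by
      intro a ha haT
      simp only [hT, mem_filter, not_and, not_or] at haT
      obtain ⟨n1, n2, n3, n4⟩ := haT ha
      have e1 : KP S U o u a = KP S U o' u a := by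
        ext t
        simp only [KP, mem_filter, mem_univ, true_and]
        by_cases htw : t = w
        · rw [htw]
          constructor
          · rintro ⟨_, _, h3⟩
            exact absurd h3.symm n1
          · rintro ⟨_, _, h3⟩
            exact absurd h3.symm n2
        · rw [hoo t htw]
      have e2 : KR S U o u (S.r u a) = KR S U o' u (S.r u a) := by
        ext t
        simp only [KR, mem_filter, mem_univ, true_and]
        by_cases htw : t = w
        · rw [htw]
          constructor
          · rintro ⟨_, _, h3⟩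
            exact absurd h3.symm n3
          · rintro ⟨_, _, h3⟩
            exact absurd h3.symm n4
        · rw [hoo t htw]
      unfold Psi1
      rw [e1, e2, sub_self]
    show |(∑ a ∈ L u ∩ M u, Psi1 S U L l m K x q o u a) -
      ∑ a ∈ L u ∩ M u, Psi1 S U L l m K x q o' u a| ≤ 4
    rw [← sum_sub_distrib]
    have hsum : ∑ a ∈ L u ∩ M u, (Psi1 S U L l m K x q o u a - Psi1 S U L l m K x q o' u a) =
        ∑ a ∈ T, (Psi1 S U L l m K x q o u a - Psi1 S U L l m K x q o' u a) := by
      symm
      exact sum_subset (filter_subset _ _) hz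
    rw [hsum]
    refine (abs_sum_le_sum_abs _ _).trans ?_
    refine (sum_le_sum (g := fun _ => (1 : ℝ)) ?_).trans ?_
    · intro a haT
      have ha : a ∈ L u := mem_of_mem_inter_left (mem_filter.1 haT).1
      refine i1_term (w := w) h hu ha ?_ ?_
      · intro t ht
        simp only [KP, mem_filter, mem_univ, true_and, hoo t ht]
      · intro t ht
        simp only [KR, mem_filter, mem_univ, true_and, hoo t ht]
    · rw [sum_const, nsmul_eq_mul, mul_one]
      exact hT4
  · intro w ω ω' hω h1 h2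
    rw [hRm] at h1 h2
    set o := oc e ω with ho
    set o' := oc e ω' with ho'
    have hoo : ∀ t, t ≠ w → o t = o' t := by
      intro t ht
      simp only [ho, ho', oc, hω t ht]
    have how : o w = e w (ω w) := rfl
    have how' : o' w = e w (ω' w) := rfl
    rw [← how] at h1
    rw [← how'] at h2
    show (∑ a ∈ L u ∩ M u, Psi1 S U L l m K x q o u a) =
      ∑ a ∈ L u ∩ M u, Psi1 S U L l m K x q o' u a
    refine sum_congr rfl fun a haM => ?_
    have ha : a ∈ L u := mem_of_mem_inter_left haM
    have e1 : KP S U o u a = KP S U o' u a := by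
      ext t
      simp only [KP, mem_filter, mem_univ, true_and]
      by_cases htw : t = w
      · rw [htw]
        constructor
        · rintro ⟨g1, g2, g3⟩
          exact absurd ⟨g1, Or.inl ⟨g2, g3 ▸ ha⟩⟩ h1
        · rintro ⟨g1, g2, g3⟩
          exact absurd ⟨g1, Or.inl ⟨g2, g3 ▸ ha⟩⟩ h2
      · rw [hoo t htw]
    have e2 : KR S U o u (S.r u a) = KR S U o' u (S.r u a) := by
      ext t
      simp only [KR, mem_filter, mem_univ, true_and]
      by_cases htw : t = w
      · rw [htw]
        constructor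
        · rintro ⟨g1, g2, g3⟩
          exact absurd ⟨g1, Or.inr ⟨g2, a, ha, g3⟩⟩ h1
        · rintro ⟨g1, g2, g3⟩
          exact absurd ⟨g1, Or.inr ⟨g2, a, ha, g3⟩⟩ h2
      · rw [hoo t htw]
    unfold Psi1
    rw [e1, e2]
  · have hl : (L u).card = l := h.card u hu
    have h1 : ∀ w, ((R w).card : ℝ) ≤
        (((L u).filter (fun a => w ∈ Pn S U L u a)).card : ℝ) +
          ∑ a ∈ L u, (((L w).filter (fun b => (w, b) ∈ Cv S U L (S.r u a))).card : ℝ) := by
      intro w
      by_cases hw : w ∈ U
      · have hinj := hE.inj w hw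
        have hmem := hE.mem w hw
        have hsub : (R w).image (e w) ⊆ ((L u).filter (fun a => w ∈ Pn S U L u a)) ∪
            (L u).biUnion (fun a => (L w).filter (fun b => (w, b) ∈ Cv S U L (S.r u a))) := by
          intro b hb
          rw [mem_image] at hb
          obtain ⟨i, hi, rfl⟩ := hb
          rw [hRm] at hi
          have hbw : e w i ∈ L w := (hmem _).2 ⟨i, rfl⟩
          rw [mem_union]
          rcases hi.2 with ⟨g1, g2⟩ | ⟨g1, a, ha, g2⟩
          · left
            simp only [Pn, mem_filter, mem_univ, true_and]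
            exact ⟨g2, hw, g1, hbw⟩
          · right
            rw [mem_biUnion]
            refine ⟨a, ha, ?_⟩
            simp only [Cv, mem_filter, mem_univ, true_and]
            exact ⟨hbw, hw, hbw, g2⟩
        have h2 := card_le_card hsub
        rw [card_image_of_injective _ hinj] at h2
        have h3 := h2.trans (card_union_le _ _)
        have h4 : ((L u).biUnion (fun a => (L w).filter
            (fun b => (w, b) ∈ Cv S U L (S.r u a)))).card ≤
            ∑ a ∈ L u, ((L w).filter (fun b => (w, b) ∈ Cv S U L (S.r u a))).card :=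
          card_biUnion_le
        have h5 := h3.trans (Nat.add_le_add_left h4 _)
        exact_mod_cast h5
      · have h0 : R w = ∅ := by
          ext i
          rw [hRm]
          simp [hw]
        rw [h0, card_empty, Nat.cast_zero]
        positivity
    have h2 : ∑ w, (((L u).filter (fun a => w ∈ Pn S U L u a)).card : ℝ) ≤ l * (2 * l) := by
      have e1 : ∀ w, (((L u).filter (fun a => w ∈ Pn S U L u a)).card : ℝ) =
          ∑ a ∈ L u, if w ∈ Pn S U L u a then (1 : ℝ) else 0 := by
        intro w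
        rw [sum_boole]
      simp only [e1]
      rw [sum_comm]
      have e2 : ∀ a ∈ L u, (∑ w, if w ∈ Pn S U L u a then (1 : ℝ) else 0) ≤ 2 * l := by
        intro a ha
        rw [sum_boole, filter_mem_eq_inter, univ_inter]
        exact h.Pn2 hu ha
      refine (sum_le_sum e2).trans ?_
      rw [sum_const, nsmul_eq_mul, hl]
    have h3 : ∑ w, ∑ a ∈ L u, (((L w).filter (fun b => (w, b) ∈ Cv S U L (S.r u a))).card : ℝ) ≤
        l * (2 * l) := by
      rw [sum_comm]
      have e2 : ∀ a ∈ L u, (∑ w, (((L w).filter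
          (fun b => (w, b) ∈ Cv S U L (S.r u a))).card : ℝ)) ≤ 2 * l := by
        intro a ha
        have e3 : ∑ w, ((L w).filter (fun b => (w, b) ∈ Cv S U L (S.r u a))).card ≤
            (Cv S U L (S.r u a)).card := by
          rw [← card_sigma]
          refine card_le_card_of_injOn (fun p => (p.1, p.2)) ?_ ?_
          · intro p hp
            simp only [mem_coe, mem_sigma, mem_filter] at hp ⊢
            exact hp.2.2
          · rintro ⟨a1, b1⟩ _ ⟨a2, b2⟩ _ heq
            simp only [Prod.mk.injEq] at heq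
            obtain ⟨rfl, rfl⟩ := heq
            rfl
        have e4 : ((∑ w, ((L w).filter (fun b => (w, b) ∈ Cv S U L (S.r u a))).card : ℕ) : ℝ) ≤
            (Cv S U L (S.r u a)).card := by exact_mod_cast e3
        push_cast at e4
        exact e4.trans (h.Cv2 _)
      refine (sum_le_sum e2).trans ?_
      rw [sum_const, nsmul_eq_mul, hl]
    calc ∑ w, ((R w).card : ℝ) ≤ ∑ w, ((((L u).filter (fun a => w ∈ Pn S U L u a)).card : ℝ) +
          ∑ a ∈ L u, (((L w).filter (fun b => (w, b) ∈ Cv S U L (S.r u a))).card : ℝ)) :=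
          sum_le_sum fun w _ => h1 w
      _ ≤ l * (2 * l) + l * (2 * l) := by
          rw [sum_add_distrib]
          exact add_le_add h2 h3
      _ = 4 * (l : ℝ) * l := by ring
  · intro w hw
    obtain ⟨i, hi⟩ := hw
    rw [hRm] at hi
    rcases hi.2 with ⟨g1, g2⟩ | ⟨g1, a, ha, g2⟩
    · exact ⟨w, ⟨w, ⟨u, rfl, Or.inr (Or.inl g1)⟩, Or.inl rfl⟩, Or.inl rfl⟩
    · exact ⟨w, ⟨S.r u a, ⟨u, rfl, Or.inr (Or.inr (Or.inl ⟨a, rfl⟩))⟩,
        Or.inr (Or.inr (Or.inr ⟨e w i, g2⟩))⟩, Or.inl rfl⟩

end Pool.TCU
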